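import Pool.Agent.Lib.MP_eee7a8_ag.TB.H75.Dcross

/-!
# TAGBR Part B, module DAX: the twist along an axis of the family (helper75)
-/

set_option autoImplicit false
set_option linter.unusedVariables false

open Matrix

namespace Pool.Agent.Lib.MP_eee7a8_ag.TB.PB.H75

variable {G : Subgroup SLZ} {κ : Type}

/-- `cpr` depends only on the separating set. -/
theorem cpr_congr {Λ : LFam G κ} (n : κ → ℤ) {x y x' y' : Pt Λ} (h : x.Sep y = x'.Sep y') :
    cpr n x y = cpr n x' y' := by
  have h1 : IsOrd x y = IsOrd x' y' := by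
    funext l
    unfold IsOrd
    rw [h]
  unfold cpr
  rw [h1]

theorem stay (ww : WW_S) (Λ : LFam G κ) (n : κ → ℤ) (v : Cusp) (l : List SLZ)
    (hpw : l.Pairwise (fun k k' => HP k' k)) (hl : ∀ k ∈ l, k ∈ Λ.KK ∧ 0 < side k v) :
    ∀ k0 : SLZ, (∀ k ∈ l, HP k k0) → 0 < side k0 v →
      0 < side k0 ((l.map (Λ.w n)).prod • v) := by
  induction l with
  | nil =>
    intro k0 _ h0
    simpa using h0
  | cons k l ih =>
    intro k0 hk0 h0
    rw [List.pairwise_cons] at hpw
    have hk := hl k (List.mem_cons_self ..)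
    have h1 := ih hpw.2 (fun k' hk' => hl k' (List.mem_cons_of_mem _ hk')) k hpw.1 hk.2
    rw [List.map_cons, List.prod_cons, mul_smul]
    apply hk0 k (List.mem_cons_self ..)
    rw [((ww G κ Λ n).2.2.2.2 k hk.1).2.2]
    exact h1

theorem pos_zpow (ps : POS_S) {h : SLZ} (ht : 2 < h.1.trace) (m : ℤ) (v : Cusp) :
    pos h (h ^ m • v) = pos h v + m := by
  have h1 := (ps h ht).1
  induction m using Int.induction_on with
  | zero => simp
  | succ i ih =>
    have e : h ^ ((i : ℤ) + 1) = h * h ^ (i : ℤ) := by group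
    rw [e, mul_smul, h1, ih]
    push_cast
    ring
  | pred i ih =>
    have h2 := h1 (h ^ (-(i : ℤ) - 1) • v)
    have e : h * h ^ (-(i : ℤ) - 1) = h ^ (-(i : ℤ)) := by group
    rw [← mul_smul, e, ih] at h2
    push_cast at h2 ⊢
    linarith

/-- MODULE DAX -/
theorem dax (axpt : AXPT_S) (coc : COC_S) (eqv : EQV_S) (sf : SEPFIN_S) (hpos : HPOS_S)
    (ww : WW_S) (nest : NEST_S) (sam : SAME_S) (cg : CPRG_S) (ps : POS_S) (posi : POSI_S)
    (ord : ORD_S) (dens : DENSE_S) : DAX_S := by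
  intro G κ _ Λ n j
  set h := Λ.h j with hh
  have hK : h ∈ Λ.KK := ⟨j, Λ.mem_self j⟩
  have hK' : h⁻¹ ∈ Λ.KK := LFam.KK_inv hK
  have ht : 2 < h.1.trace := Λ.tr j
  have hG : h ∈ G := LFam.KK_G hK
  obtain ⟨⟨u0, hu0, -, -⟩, ⟨v0, hv0, -, -⟩⟩ := dens h ht 0 1 one_pos
  obtain ⟨x, hx⟩ := axpt G κ Λ h hK
  -- complement
  have hcompl : ∀ k ∈ Λ.KK, HP k⁻¹ h → HP h⁻¹ k := by
    intro k hk h1 v hv
    by_contra h2
    have h3 := LFam.side_ne hk v
    have h4 : 0 < side k⁻¹ v := by rw [side_inv]; omega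
    have h5 := h1 v h4
    rw [side_inv] at hv
    omega
  -- the separating set on the negative side
  have sepN : ∀ v, side h v < 0 → ∀ k, k ∈ x.Sep (Pt.ofCusp Λ v) ↔
      (k ∈ Λ.KK ∧ HP k h⁻¹ ∧ ¬ HP h⁻¹ k ∧ 0 < side k v) := by
    intro v hv k
    show (k ∈ Λ.KK ∧ ¬ x.mem k ∧ 0 < side k v) ↔ _
    constructor
    · rintro ⟨hk, h1, h2⟩
      rw [hx k hk] at h1
      push Not at h1
      obtain ⟨h3, h4⟩ := h1
      refine ⟨hk, ?_, h3, h2⟩
      rcases nest G κ Λ k hk h hK with h5 | h5 | h5 | h5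
      · have := h5 v h2; omega
      · have := h4 h5 v h2; omega
      · exact h5
      · exact absurd (hcompl k hk h5) h3
    · rintro ⟨hk, h1, h2, h3⟩
      refine ⟨hk, ?_, h3⟩
      rw [hx k hk]
      rintro (h4 | ⟨h4, h5⟩)
      · exact h2 h4
      · have h6 := h1 v0 (h4 v0 hv0)
        rw [side_inv] at h6
        omega
  have sepP : ∀ v, 0 < side h v → ∀ k, k ∈ x.Sep (Pt.ofCusp Λ v) ↔
      (k ∈ Λ.KK ∧ HP k h ∧ 0 < side k v) := by
    intro v hv k
    show (k ∈ Λ.KK ∧ ¬ x.mem k ∧ 0 < side k v) ↔ _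
    constructor
    · rintro ⟨hk, h1, h2⟩
      rw [hx k hk] at h1
      push Not at h1
      obtain ⟨h3, h4⟩ := h1
      refine ⟨hk, ?_, h2⟩
      rcases nest G κ Λ k hk h hK with h5 | h5 | h5 | h5
      · exact h5
      · exact h4 h5
      · have h6 := h5 v h2
        rw [side_inv] at h6
        omega
      · exact absurd (hcompl k hk h5) h3
    · rintro ⟨hk, h1, h2⟩
      refine ⟨hk, ?_, h2⟩
      rw [hx k hk]
      rintro (h4 | ⟨h4, h5⟩)
      · have h7 : 0 < side h⁻¹ u0 := by rw [side_inv]; omega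
        have h6 := h1 u0 (h4 u0 h7)
        omega
      · exact h5 h1
  -- finiteness
  have fin : ∀ v, (x.Sep (Pt.ofCusp Λ v)).Finite := by
    intro v
    rcases lt_or_gt_of_ne (LFam.side_ne hK v) with hv | hv
    · refine (sf G κ ‹_› Λ v0 v).subset ?_
      intro k hk
      rw [sepN v hv] at hk
      rw [mem_sep]
      refine ⟨hk.1, ?_, hk.2.2.2⟩
      by_contra h1
      have h2 := LFam.side_ne hk.1 v0
      have h3 := hk.2.1 v0 (by omega)
      rw [side_inv] at h3
      omega
    · refine (sf G κ ‹_› Λ u0 v).subset ?_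
      intro k hk
      rw [sepP v hv] at hk
      rw [mem_sep]
      refine ⟨hk.1, ?_, hk.2.2⟩
      by_contra h1
      have h2 := LFam.side_ne hk.1 u0
      have h3 := hk.2.1 u0 (by omega)
      omega
  have hD : ∀ v, cpr n x (Pt.ofCusp Λ infty) • Λ.D n v = cpr n x (Pt.ofCusp Λ v) • v := by
    intro v
    unfold LFam.D
    rw [← mul_smul, coc G κ Λ n x _ _ (fin infty) (sf G κ ‹_› Λ infty v) (fin v)]
  refine ⟨cpr n x (Pt.ofCusp Λ infty), cg G κ Λ n _ _, ?_, ?_, ?_⟩
  · -- equivariance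
    intro v
    rw [hD, hD]
    have h1 := eqv G κ Λ n x (Pt.ofCusp Λ v) ⟨h, hG⟩ (fin v)
    have h2 : (x.act ⟨h, hG⟩).Sep ((Pt.ofCusp Λ v).act ⟨h, hG⟩) =
        x.Sep (Pt.ofCusp Λ (h • v)) := by
      ext k
      show (k ∈ Λ.KK ∧ ¬ x.mem (h⁻¹ * k * h) ∧ 0 < side (h⁻¹ * k * h) v) ↔
        (k ∈ Λ.KK ∧ ¬ x.mem k ∧ 0 < side k (h • v))
      have h3 : side (h⁻¹ * k * h) v = side k (h • v) := by
        have := side_conj h (h⁻¹ * k * h) v
        rw [← this]
        congr 1
        group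
      rw [h3]
      refine and_congr_right (fun hk => and_congr_left (fun _ => not_congr ?_))
      have hk' : h⁻¹ * k * h ∈ Λ.KK := LFam.KK_conj' hk hG
      rw [hx _ hk', hx _ hk]
      have c1 : HP h⁻¹ (h⁻¹ * k * h) ↔ HP h⁻¹ k := by
        constructor
        · intro h4
          have := h4.conj h
          have e1 : h * h⁻¹ * h⁻¹ = h⁻¹ := by group
          have e2 : h * (h⁻¹ * k * h) * h⁻¹ = k := by group
          rwa [e1, e2] at this
        · intro h4
          have := h4.conj h⁻¹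
          have e1 : h⁻¹ * h⁻¹ * h⁻¹⁻¹ = h⁻¹ := by group
          have e2 : h⁻¹ * k * h⁻¹⁻¹ = h⁻¹ * k * h := by group
          rwa [e1, e2] at this
      have c2 : HP h (h⁻¹ * k * h) ↔ HP h k := by
        constructor
        · intro h4
          have := h4.conj h
          have e1 : h * h * h⁻¹ = h := by group
          have e2 : h * (h⁻¹ * k * h) * h⁻¹ = k := by group
          rwa [e1, e2] at this
        · intro h4
          have := h4.conj h⁻¹
          have e1 : h⁻¹ * h * h⁻¹⁻¹ = h := by group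
          have e2 : h⁻¹ * k * h⁻¹⁻¹ = h⁻¹ * k * h := by group
          rwa [e1, e2] at this
      have c3 : HP (h⁻¹ * k * h) h ↔ HP k h := by
        constructor
        · intro h4
          have := h4.conj h
          have e1 : h * h * h⁻¹ = h := by group
          have e2 : h * (h⁻¹ * k * h) * h⁻¹ = k := by group
          rwa [e1, e2] at this
        · intro h4
          have := h4.conj h⁻¹
          have e1 : h⁻¹ * h * h⁻¹⁻¹ = h := by group
          have e2 : h⁻¹ * k * h⁻¹⁻¹ = h⁻¹ * k * h := by group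
          rwa [e1, e2] at this
      rw [c1, c2, c3]
    rw [← cpr_congr n h2, h1, ← mul_smul, ← mul_smul]
    congr 1
    show h * cpr n x (Pt.ofCusp Λ v) * h⁻¹ * h = h * cpr n x (Pt.ofCusp Λ v)
    group
  · -- negative side
    intro v hv
    rw [hD]
    obtain ⟨l, hl, -⟩ := ord G κ Λ x _ (fin v)
    rw [cpr_eq ord n (fin v) hl]
    rcases l with _ | ⟨k1, l⟩
    · simp [hv]
    · have hmem : ∀ k ∈ k1 :: l, k ∈ Λ.KK ∧ HP k h⁻¹ ∧ ¬ HP h⁻¹ k ∧ 0 < side k v :=
        fun k hk => (sepN v hv k).1 ((hl.1 k).1 hk)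
      have h1 := hmem k1 (List.mem_cons_self ..)
      have h2 := stay ww Λ n v (k1 :: l) hl.2.2 (fun k hk => ⟨(hmem k hk).1, (hmem k hk).2.2.2⟩)
        k1 (by
          intro k hk
          rcases List.mem_cons.1 hk with rfl | hk
          · exact HP.refl _
          · exact (List.pairwise_cons.1 hl.2.2).1 k hk) h1.2.2.2
      have h3 := h1.2.1 _ h2
      rw [side_inv] at h3
      refine ⟨by omega, ?_⟩
      have h4 := hpos G κ ‹_› Λ h⁻¹ hK' k1 h1.1 h1.2.1 h1.2.2.1 _ _ h2 h1.2.2.2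
      obtain ⟨c, hc⟩ := posi h ht
      rw [hc, hc] at h4
      rw [abs_sub_comm]
      convert h4 using 2
      ring
  · -- positive side
    intro v hv
    rw [hD]
    obtain ⟨l, hl, -⟩ := ord G κ Λ x _ (fin v)
    rw [cpr_eq ord n (fin v) hl]
    have hmem : ∀ k ∈ l, k ∈ Λ.KK ∧ HP k h ∧ 0 < side k v :=
      fun k hk => (sepP v hv k).1 ((hl.1 k).1 hk)
    have hhl : h ∈ l := (hl.1 h).2 ((sepP v hv h).2 ⟨hK, HP.refl _, hv⟩)
    rcases l with _ | ⟨k1, l⟩
    · simp at hhl
    · have hk1 : k1 = h := by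
        rcases List.mem_cons.1 hhl with h1 | h1
        · exact h1.symm
        · have h2 := (List.pairwise_cons.1 hl.2.2).1 h h1
          have h3 := hmem k1 (List.mem_cons_self ..)
          exact sam G κ Λ k1 h3.1 h hK h3.2.1 h2
      rw [hk1] at hl hhl hmem ⊢
      have hnd : h ∉ l := (List.nodup_cons.1 hl.2.1).1
      have hpw := (List.pairwise_cons.1 hl.2.2)
      have hmem' : ∀ k ∈ l, k ∈ Λ.KK ∧ HP k h ∧ 0 < side k v :=
        fun k hk => hmem k (List.mem_cons_of_mem _ hk)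
      have hy := stay ww Λ n v l hpw.2 (fun k hk => ⟨(hmem' k hk).1, (hmem' k hk).2.2⟩) h
        hpw.1 hv
      have hw : Λ.w n h = h ^ n j := (ww G κ Λ n).1 j h (by rw [hh]; exact Λ.mem_self j)
      rw [List.map_cons, List.prod_cons, mul_smul]
      refine ⟨?_, ?_⟩
      · rw [((ww G κ Λ n).2.2.2.2 h hK).2.2]
        exact hy
      · rw [hw, pos_zpow ps ht]
        have h5 : |pos h ((l.map (Λ.w n)).prod • v) - pos h v| ≤ 1 := by
          rcases l with _ | ⟨k2, l⟩
          · simp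
          · have h6 := hmem' k2 (List.mem_cons_self ..)
            have h7 := stay ww Λ n v (k2 :: l) hpw.2
              (fun k hk => ⟨(hmem' k hk).1, (hmem' k hk).2.2⟩) k2 (by
                intro k hk
                rcases List.mem_cons.1 hk with rfl | hk
                · exact HP.refl _
                · exact (List.pairwise_cons.1 hpw.2).1 k hk) h6.2.2
            have h8 : ¬ HP h k2 := by
              intro h9
              apply hnd
              rw [sam G κ Λ h hK k2 h6.1 h9 h6.2.1]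
              exact List.mem_cons_self ..
            exact hpos G κ ‹_› Λ h hK k2 h6.1 h6.2.1 h8 _ _ h7 h6.2.2
        convert h5 using 2
        ring

end Pool.Agent.Lib.MP_eee7a8_ag.TB.PB.H75
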