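import Pool.Agent.Lib.MP_eee7a8_ag.TB.IfaceB

/-!
# TAGBR Part B, module DCROSS: the twist preserves crossing (helper75)
-/

set_option autoImplicit false
set_option linter.unusedVariables false

open Matrix

namespace Pool.Agent.Lib.MP_eee7a8_ag.TB.PB.H75

variable {G : Subgroup SLZ} {κ : Type}

theorem cpr_eq (ord : ORD_S) {Λ : LFam G κ} (n : κ → ℤ) {x y : Pt Λ} (hf : (x.Sep y).Finite)
    {l : List SLZ} (hl : IsOrd x y l) : cpr n x y = (l.map (Λ.w n)).prod := by
  obtain ⟨l0, h0, hu⟩ := ord G κ Λ x y hf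
  have H : ∃ l, IsOrd x y l := ⟨l, hl⟩
  unfold cpr
  rw [dif_pos H, hu _ H.choose_spec, hu _ hl]

/-- The set separating two cusps. -/
theorem mem_sep {Λ : LFam G κ} {o v : Cusp} {k : SLZ} :
    k ∈ (Pt.ofCusp Λ o).Sep (Pt.ofCusp Λ v) ↔ k ∈ Λ.KK ∧ side k o < 0 ∧ 0 < side k v := by
  show (k ∈ Λ.KK ∧ ¬ (0 < side k o) ∧ 0 < side k v) ↔ _
  constructor
  · rintro ⟨h1, h2, h3⟩
    have := LFam.side_ne h1 o
    exact ⟨h1, by omega, h3⟩
  · rintro ⟨h1, h2, h3⟩
    exact ⟨h1, by omega, h3⟩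

theorem dl_cross (ek : EK_S) (ww : WW_S) (Λ : LFam G κ) (n : κ → ℤ) (l : List SLZ)
    (hl : ∀ k ∈ l, k ∈ Λ.KK) (a b c d : Cusp) :
    Cross (Λ.DL n l a) (Λ.DL n l b) (Λ.DL n l c) (Λ.DL n l d) ↔ Cross a b c d := by
  induction l with
  | nil => exact Iff.rfl
  | cons k l ih =>
    obtain ⟨j, hj⟩ := hl k (List.mem_cons_self ..)
    have hw := (ww G κ Λ n).1 j k hj
    have h1 := ek k (n j) (LFam.KK_tr ⟨j, hj⟩) (Λ.DL n l a) (Λ.DL n l b) (Λ.DL n l c)
      (Λ.DL n l d)
    rw [← hw] at h1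
    rw [← ih (fun k hk => hl k (List.mem_cons_of_mem _ hk)), ← h1]
    exact Iff.rfl

/-- MODULE DCROSS -/
theorem dcross (el : EL_S) (sort : SORT_S) (ord : ORD_S) (sf : SEPFIN_S) (ek : EK_S) (ww : WW_S)
    (nest : NEST_S) : DCROSS_S := by
  intro G κ _ Λ n a b c d
  set F : Set SLZ := (Pt.ofCusp Λ infty).Sep (Pt.ofCusp Λ a) ∪
    (Pt.ofCusp Λ infty).Sep (Pt.ofCusp Λ b) ∪ (Pt.ofCusp Λ infty).Sep (Pt.ofCusp Λ c) ∪
    (Pt.ofCusp Λ infty).Sep (Pt.ofCusp Λ d) with hF
  have hfin : F.Finite := (((sf G κ ‹_› Λ infty a).union (sf G κ ‹_› Λ infty b)).union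
    (sf G κ ‹_› Λ infty c)).union (sf G κ ‹_› Λ infty d)
  have hsub : ∀ k ∈ F, k ∈ Λ.KK ∧ side k infty < 0 := by
    rintro k (((hk | hk) | hk) | hk)
    all_goals
      rw [mem_sep] at hk
      exact ⟨hk.1, hk.2.1⟩
  obtain ⟨l, hl, hnd, hpw⟩ := sort G κ Λ F hfin (fun k hk => (hsub k hk).1)
  have key : ∀ v, (Pt.ofCusp Λ infty).Sep (Pt.ofCusp Λ v) ⊆ F → Λ.D n v = Λ.DL n l v := by
    intro v hv
    rw [el G κ Λ n infty l (fun k hk => hsub k ((hl k).1 hk)) hpw v]
    have hord : IsOrd (Pt.ofCusp Λ infty) (Pt.ofCusp Λ v)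
        (l.filter (fun k => 0 < side k v)) := by
      refine ⟨?_, hnd.filter _, ?_⟩
      · intro k
        rw [List.mem_filter, hl, decide_eq_true_eq]
        constructor
        · rintro ⟨h1, h2⟩
          rw [mem_sep]
          exact ⟨(hsub k h1).1, (hsub k h1).2, h2⟩
        · intro h
          refine ⟨hv h, ?_⟩
          rw [mem_sep] at h
          exact h.2.2
      · have h1 : (l.filter (fun k => 0 < side k v)).Pairwise (fun k k' => ¬ HP k k') :=
          hpw.filter _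
        refine h1.imp_of_mem ?_
        intro k k' hk hk' hkk
        rw [List.mem_filter, hl, decide_eq_true_eq] at hk hk'
        have hK := hsub k hk.1
        have hK' := hsub k' hk'.1
        rcases nest G κ Λ k hK.1 k' hK'.1 with h | h | h | h
        · exact absurd h hkk
        · exact h
        · exfalso
          have := h v hk.2
          rw [side_inv] at this
          have := hk'.2
          omega
        · exfalso
          have h3 : 0 < side k⁻¹ infty := by rw [side_inv]; have := hK.2; omega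
          have := h infty h3
          have := hK'.2
          omega
    unfold LFam.D
    rw [cpr_eq ord n (sf G κ ‹_› Λ infty v) hord]
  rw [key a (fun k hk => Or.inl (Or.inl (Or.inl hk))),
    key b (fun k hk => Or.inl (Or.inl (Or.inr hk))), key c (fun k hk => Or.inl (Or.inr hk)),
    key d (fun k hk => Or.inr hk)]
  exact dl_cross ek ww Λ n l (fun k hk => (hsub k ((hl k).1 hk)).1) a b c d

end Pool.Agent.Lib.MP_eee7a8_ag.TB.PB.H75
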